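import Pool.Agent.D0H61.AB.Stm

set_option autoImplicit false

/-!
# Project AB, module FST: the first moment
-/

namespace Pool.Agent.D0H92.AB

open Filter Topology MeasureTheory Finset Pool.Agent.D0H61.AB

/-- the number of the multiples of `p` in an interval of integers -/
lemma card_mult (a m : ℤ) (p : ℕ) (hp : 0 < p) (ham : a ≤ m) :
    (((Finset.Icc a m).filter fun r => (p : ℤ) ∣ r).card : ℝ) ≤ ((m : ℝ) - a) / p + 1 := by
  have h1 : ((Finset.Icc a m).filter fun r => (p : ℤ) ∣ r).card ≤ (⌊(m : ℝ) / p⌋ - ⌈(a : ℝ) / p⌉ + 1).toNat := by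
    have h2 : ((Finset.Icc a m).filter fun r => (p : ℤ) ∣ r) ⊆
        (Finset.Icc ⌈(a : ℝ) / p⌉ ⌊(m : ℝ) / p⌋).image fun k : ℤ => (p : ℤ) * k := by
      intro r hr
      obtain ⟨h3, k, hk⟩ := Finset.mem_filter.1 hr
      obtain ⟨h4, h5⟩ := Finset.mem_Icc.1 h3
      have hp' : (0 : ℝ) < p := by exact_mod_cast hp
      have h6 : (r : ℝ) = p * k := by rw [hk]; push_cast; ring
      have h4' : (a : ℝ) ≤ r := by exact_mod_cast h4
      have h5' : (r : ℝ) ≤ m := by exact_mod_cast h5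
      refine Finset.mem_image.2 ⟨k, Finset.mem_Icc.2 ⟨?_, ?_⟩, hk.symm⟩
      · rw [Int.ceil_le, div_le_iff₀ hp']; linarith
      · rw [Int.le_floor, le_div_iff₀ hp']; linarith
    refine (Finset.card_le_card h2).trans (Finset.card_image_le.trans ?_)
    rw [Int.card_Icc]
    apply le_of_eq
    congr 1
    ring
  have h2 : (((⌊(m : ℝ) / p⌋ - ⌈(a : ℝ) / p⌉ + 1).toNat : ℕ) : ℝ) ≤ ((m : ℝ) - a) / p + 1 := by
    have hnn : 0 ≤ ((m : ℝ) - a) / p + 1 := by
      have : (a : ℝ) ≤ m := by exact_mod_cast ham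
      have h3 : 0 ≤ (m : ℝ) - a := by linarith
      positivity
    rcases le_or_gt (⌊(m : ℝ) / p⌋ - ⌈(a : ℝ) / p⌉ + 1) 0 with h | h
    · rw [Int.toNat_of_nonpos h]; simpa using hnn
    · have h3 : (((⌊(m : ℝ) / p⌋ - ⌈(a : ℝ) / p⌉ + 1).toNat : ℕ) : ℝ) = ((⌊(m : ℝ) / p⌋ - ⌈(a : ℝ) / p⌉ + 1 : ℤ) : ℝ) := by
        have := congrArg (Int.cast (R := ℝ)) (Int.toNat_of_nonneg h.le)
        rw [← this]
        push_cast
        rfl
      rw [h3]
      push_cast
      have h4 := Int.floor_le ((m : ℝ) / p)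
      have h5 := Int.le_ceil ((a : ℝ) / p)
      rw [sub_div]
      linarith
  calc (((Finset.Icc a m).filter fun r => (p : ℤ) ∣ r).card : ℝ) ≤ _ := by exact_mod_cast h1
    _ ≤ _ := h2

theorem t_FST : S_FST := by
  classical
  intro k s x y b hk hx hxy hb hodd hsum hs hbig
  have hb' : (0 : ℝ) < b := by exact_mod_cast hb
  obtain ⟨q, hq⟩ : ∃ q : ℝ, q = 2 ^ k := ⟨_, rfl⟩
  have hq8 : 8 ≤ q := by
    rw [hq]
    calc (8 : ℝ) = 2 ^ 3 := by norm_num
      _ ≤ 2 ^ k := pow_le_pow_right₀ (by norm_num) hk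
  have hq0 : 0 < q := by linarith
  rw [← hq] at hbig ⊢
  obtain ⟨w, hw⟩ : ∃ w : ℝ, w = (b.primeFactors.card : ℝ) := ⟨_, rfl⟩
  have hw0 : 0 ≤ w := by rw [hw]; exact Nat.cast_nonneg _
  rw [← hw] at hbig
  obtain ⟨D, hD⟩ : ∃ D : ℝ, D = (y - x) * b / q := ⟨_, rfl⟩
  have hDq : D * q = (y - x) * b := by rw [hD]; field_simp
  have hD16 : 16 * (w + 1) ≤ D := by
    rw [hD, le_div_iff₀ hq0]; linarith
  -- the integers
  obtain ⟨a, ha⟩ : ∃ a : ℤ, a = ⌈(x * b + s + 1) / q⌉ := ⟨_, rfl⟩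
  obtain ⟨m, hm⟩ : ∃ m : ℤ, m = ⌊(y * b + s - 1) / q⌋ := ⟨_, rfl⟩
  have hs1 := neg_abs_le s
  have hapos : 0 < a := by
    rw [ha, Int.ceil_pos]
    apply div_pos _ hq0
    linarith
  have ha1 : (a : ℝ) < (x * b + s + 1) / q + 1 := by rw [ha]; exact Int.ceil_lt_add_one _
  have ha2 : (x * b + s + 1) / q ≤ a := by rw [ha]; exact Int.le_ceil _
  have hm1 : (y * b + s - 1) / q - 1 < m := by rw [hm]; exact Int.sub_one_lt_floor _
  have hm2 : (m : ℝ) ≤ (y * b + s - 1) / q := by rw [hm]; exact Int.floor_le _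
  have hdiff : (y * b + s - 1) / q - (x * b + s + 1) / q = D - 2 / q := by rw [hD]; field_simp; ring
  have h2q : 2 / q ≤ 1 / 4 := by rw [div_le_div_iff₀ hq0 (by norm_num)]; linarith
  have h2q0 : 0 < 2 / q := by positivity
  have hma1 : (m : ℝ) - a ≤ D := by linarith
  have hma2 : D - 9 / 4 ≤ (m : ℝ) - a := by linarith
  have ham : a ≤ m := by
    have : (a : ℝ) ≤ m := by linarith
    exact_mod_cast this
  -- the good integers
  set G := (Finset.Icc a m).filter fun r => ∀ p ∈ b.primeFactors, ¬ (p : ℤ) ∣ r with hG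
  have hGcard : D / 16 ≤ (G.card : ℝ) := by
    have h1 : (Finset.Icc a m) ⊆ G ∪ b.primeFactors.biUnion fun p => (Finset.Icc a m).filter fun r => (p : ℤ) ∣ r := by
      intro r hr
      rw [Finset.mem_union, Finset.mem_biUnion]
      by_cases h : ∀ p ∈ b.primeFactors, ¬ (p : ℤ) ∣ r
      · exact Or.inl (Finset.mem_filter.2 ⟨hr, h⟩)
      · push Not at h
        obtain ⟨p, hp, hpr⟩ := h
        exact Or.inr ⟨p, hp, Finset.mem_filter.2 ⟨hr, hpr⟩⟩
    have h2 := (Finset.card_le_card h1).trans (Finset.card_union_le _ _)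
    have h3 := Finset.card_biUnion_le (s := b.primeFactors) (t := fun p => (Finset.Icc a m).filter fun r => (p : ℤ) ∣ r)
    have h4 : ((Finset.Icc a m).card : ℝ) ≤ (G.card : ℝ) +
        ∑ p ∈ b.primeFactors, (((Finset.Icc a m).filter fun r => (p : ℤ) ∣ r).card : ℝ) := by
      exact_mod_cast h2.trans (Nat.add_le_add_left h3 _)
    have h5 : ∑ p ∈ b.primeFactors, (((Finset.Icc a m).filter fun r => (p : ℤ) ∣ r).card : ℝ) ≤
        ∑ p ∈ b.primeFactors, (((m : ℝ) - a) * (1 / p) + 1) := by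
      refine Finset.sum_le_sum fun p hp => ?_
      have := card_mult a m p (Nat.prime_of_mem_primeFactors hp).pos ham
      rw [mul_one_div]
      exact this
    rw [Finset.sum_add_distrib, ← Finset.mul_sum, Finset.sum_const, nsmul_eq_mul, mul_one, ← hw] at h5
    have h6 : ((Finset.Icc a m).card : ℝ) = (m : ℝ) - a + 1 := by
      rw [Int.card_Icc]
      have h7 : 0 ≤ m + 1 - a := by omega
      have h8 : (((m + 1 - a).toNat : ℕ) : ℤ) = m + 1 - a := Int.toNat_of_nonneg h7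
      have h9 := congrArg (Int.cast (R := ℝ)) h8
      push_cast at h9
      linarith
    have hma0 : 0 ≤ (m : ℝ) - a := by
      have : (a : ℝ) ≤ m := by exact_mod_cast ham
      linarith
    have h7 : ((m : ℝ) - a) * ∑ p ∈ b.primeFactors, 1 / (p : ℝ) ≤ ((m : ℝ) - a) * (1 / 2) :=
      mul_le_mul_of_nonneg_left hsum hma0
    rw [h6] at h4
    linarith
  -- the intervals
  obtain ⟨J, hJ⟩ : ∃ J : ℤ → Set ℝ, J = fun r : ℤ => Set.Icc ((q * (r : ℝ) - s - 1) / b) ((q * (r : ℝ) - s + 1) / b) := ⟨_, rfl⟩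
  have hsub : (⋃ r ∈ G, J r) ⊆ Set.Icc x y ∩ Gd k s b := by
    intro α hα
    obtain ⟨r, hr, hα2⟩ := Set.mem_iUnion₂.1 hα
    rw [hJ] at hα2
    obtain ⟨h1, h2⟩ := hα2
    obtain ⟨hr1, hr2⟩ := Finset.mem_filter.1 hr
    obtain ⟨hr3, hr4⟩ := Finset.mem_Icc.1 hr1
    have hr3' : (a : ℝ) ≤ r := by exact_mod_cast hr3
    have hr4' : (r : ℝ) ≤ m := by exact_mod_cast hr4
    rw [div_le_iff₀ hb'] at h1
    rw [le_div_iff₀ hb'] at h2
    have h3 : x * b + s + 1 ≤ q * r := by
      have : (x * b + s + 1) / q ≤ r := ha2.trans hr3'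
      rw [div_le_iff₀ hq0] at this
      linarith
    have h4 : q * r ≤ y * b + s - 1 := by
      have : (r : ℝ) ≤ (y * b + s - 1) / q := hr4'.trans hm2
      rw [le_div_iff₀ hq0] at this
      linarith
    refine ⟨⟨?_, ?_⟩, ?_⟩
    · by_contra h
      push Not at h
      nlinarith
    · by_contra h
      push Not at h
      nlinarith
    · have hrpos : 0 < r := lt_of_lt_of_le hapos hr3
      have hrn : ((r.toNat : ℕ) : ℤ) = r := Int.toNat_of_nonneg hrpos.le
      have hrt : 0 < r.toNat := by omega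
      have hcast : ((2 ^ k * r.toNat : ℕ) : ℝ) = q * r := by
        have := congrArg (Int.cast (R := ℝ)) hrn
        push_cast at this
        rw [hq, ← this]
        push_cast
        rfl
      refine ⟨2 ^ k * r.toNat, Nat.mul_pos (by positivity) hrt, dvd_mul_right _ _, ?_, ?_⟩
      · apply Nat.Coprime.mul_right
        · apply Nat.Coprime.pow_right
          exact ((Nat.Prime.coprime_iff_not_dvd Nat.prime_two).2 hodd).symm
        · rw [Nat.coprime_iff_gcd_eq_one]
          by_contra hne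
          obtain ⟨p, hp, hpd⟩ := Nat.exists_prime_and_dvd hne
          have hpb := hpd.trans (Nat.gcd_dvd_left _ _)
          have hpr := hpd.trans (Nat.gcd_dvd_right _ _)
          refine hr2 p (Nat.mem_primeFactors.2 ⟨hp, hpb, hb.ne'⟩) ?_
          rw [← hrn]
          exact_mod_cast hpr
      · rw [hcast, abs_le]
        constructor <;> linarith
  have hdisj : Set.PairwiseDisjoint (G : Set ℤ) J := by
    intro r _ r' _ hne
    show Disjoint (J r) (J r')
    rw [Set.disjoint_left]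
    intro α h1 h2
    rw [hJ] at h1 h2
    obtain ⟨h3, h4⟩ := h1
    obtain ⟨h5, h6⟩ := h2
    rw [div_le_iff₀ hb'] at h3 h5
    rw [le_div_iff₀ hb'] at h4 h6
    rcases lt_or_gt_of_ne hne with h | h
    · have h7 : (r : ℝ) + 1 ≤ r' := by exact_mod_cast h
      nlinarith
    · have h7 : (r' : ℝ) + 1 ≤ r := by exact_mod_cast h
      nlinarith
  have hvol : ∀ r, volume (J r) = ENNReal.ofReal (2 / b) := by
    intro r
    rw [hJ]
    show volume (Set.Icc _ _) = _
    rw [Real.volume_Icc]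
    congr 1
    field_simp
    ring
  have hmeas : ∀ r ∈ G, MeasurableSet (J r) := by
    intro r _
    rw [hJ]
    exact measurableSet_Icc
  have hU : volume (⋃ r ∈ G, J r) = ENNReal.ofReal (G.card * (2 / b)) := by
    rw [measure_biUnion_finset hdisj hmeas]
    rw [Finset.sum_congr rfl fun r _ => hvol r, Finset.sum_const, nsmul_eq_mul,
      ENNReal.ofReal_mul (Nat.cast_nonneg _), ENNReal.ofReal_natCast]
  calc ENNReal.ofReal ((y - x) * (1 / q) / 8) ≤ ENNReal.ofReal (G.card * (2 / b)) := by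
        apply ENNReal.ofReal_le_ofReal
        have h1 : (y - x) * (1 / q) / 8 = D / 16 * (2 / b) := by
          rw [hD]; field_simp; ring
        rw [h1]
        exact mul_le_mul_of_nonneg_right hGcard (by positivity)
    _ = volume (⋃ r ∈ G, J r) := hU.symm
    _ ≤ volume (Set.Icc x y ∩ Gd k s b) := measure_mono hsub

end Pool.Agent.D0H92.AB
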